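import Pool.Agent.H312TD.Asymp
import Pool.Agent.H312TD.Strict
import Pool.Agent.H312TD.Uniform

/-!
# MP_1ce445_co : product of total domination numbers over factorizations of `K_n`

`totalDomNumber`, `IsFactorization` and `P` are defined in `Pool/Agent/H312TD/Defs.lean`.

* The bound `((1 - 1/k)(n+1))^k` is never attained, for any `n ≥ 7`, `3 ≤ k ≤ n - 2`.
* `P(n,k) = (1/27 + o(1)) n^k`, uniformly for `k ≥ 3` with `k^3 = o(n)`; in particular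
  `P(n,k)/n^k → 1/27` for every fixed `k ≥ 3`.
* `P(n,k) ≤ e^{-2} (n+15)^k` for all `n ≥ 2` and all `k`.
-/

namespace Pool.Agent.Results.MP_1ce445_co.NeverTightAndAsymptotics

open Pool.Agent.H312TD

theorem result :
    (∀ n k : ℕ, 7 ≤ n → 3 ≤ k → k ≤ n - 2 →
      (P n k : ℝ) < ((1 - 1 / (k : ℝ)) * ((n : ℝ) + 1)) ^ k) ∧
    (∀ ε : ℝ, 0 < ε → ∃ K : ℕ, ∀ n k : ℕ, 3 ≤ k → K * k ^ 3 ≤ n →
      |(P n k : ℝ) / (n : ℝ) ^ k - 1 / 27| ≤ ε) ∧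
    (∀ n k : ℕ, 2 ≤ n → (P n k : ℝ) ≤ Real.exp (-2) * ((n : ℝ) + 15) ^ k) :=
  ⟨fun n k hn hk hkn => P_lt_bound n k hn hk hkn, P_unif, P_le_uniform⟩

end Pool.Agent.Results.MP_1ce445_co.NeverTightAndAsymptotics
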